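import Mathlib

/-!
# MP_f06e6c_an: every Alsedà–Misiurewicz system with `1/2 ≤ y₀ < x₀ < 1` is minimal

Idea of the proof.  Let `A` be closed and forward invariant, `A' = 1 - A`.  Near `0` the maps are the
multiplications by `a₀ < 1 < a₁`; hence `A` is, near `0`, the trace of a closed set `S ⊆ (0, ∞)`
invariant under multiplication by `a₀^{±1}, a₁^{±1}`, and similarly `S'` for `A'`.  The reflection
`x ↦ 1 - x` maps `S ∩ [1 - x₀, 1 - y₀]` into `S'` and vice versa.  If `(u, v)` is a gap of `S'` with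
`y₀ ≤ u < x₀`, then its reflection (rescaled if `v > x₀`) is a gap of `S` whose ratio is larger by a
definite factor, because `t (1 - t)` is decreasing on `[1/2, 1]`.  Since the ratios of gaps are bounded
by `1 / a₀`, there are no gaps.
-/

set_option autoImplicit false

namespace Pool.Agent.Results.MP_f06e6c_an.Minimality

open Set

/-- The map `f₀` of the Alsedà–Misiurewicz system with parameters `(x₀, y₀)`. -/
noncomputable def f0 (x0 y0 x : ℝ) : ℝ :=
  if x ≤ x0 then y0 / x0 * x else (1 - y0) / (1 - x0) * (x - 1) + 1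

/-- The map `f₁ x = 1 - f₀ (1 - x)`. -/
noncomputable def f1 (x0 y0 x : ℝ) : ℝ := 1 - f0 x0 y0 (1 - x)

/-- The orbit of `x`: all the images of `x` under finite (possibly empty) compositions of `f₀` and
`f₁`. -/
def orbit (x0 y0 x : ℝ) : Set ℝ :=
  {y | ∃ w : List Bool, y = w.foldr (fun b z => if b then f1 x0 y0 z else f0 x0 y0 z) x}

/-- The parameters. -/
structure Par (x0 y0 : ℝ) : Prop where
  hx : 1 / 2 < x0
  hx1 : x0 < 1
  hy : 1 / 2 ≤ y0
  hyx : y0 < x0

variable {x0 y0 : ℝ}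

theorem Par.a0_pos (h : Par x0 y0) : 0 < y0 / x0 := by
  have := h.hx; have := h.hy; positivity

theorem Par.a0_lt (h : Par x0 y0) : y0 / x0 < 1 := by
  have := h.hx; rw [div_lt_one (by linarith)]; exact h.hyx

theorem Par.a1_gt (h : Par x0 y0) : 1 < (1 - y0) / (1 - x0) := by
  have := h.hx1; have := h.hyx; rw [one_lt_div (by linarith)]; linarith

theorem f0_left {x : ℝ} (hx : x ≤ x0) : f0 x0 y0 x = y0 / x0 * x := if_pos hx

theorem f1_left (h : Par x0 y0) {x : ℝ} (hx : x ≤ 1 - x0) :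
    f1 x0 y0 x = (1 - y0) / (1 - x0) * x := by
  have h1 := h.hx1
  have h2 := h.hx
  rw [f1, f0]
  split_ifs with hc
  · have : x = 1 - x0 := by linarith
    subst this
    have e1 : 1 - x0 ≠ 0 := by linarith
    have e2 : x0 ≠ 0 := by linarith
    field_simp
    ring
  · ring

/-- Closed forward invariant sets. -/
structure Inv (x0 y0 : ℝ) (A : Set ℝ) : Prop where
  sub : A ⊆ Ioo 0 1
  closed : ∀ x ∈ Ioo (0 : ℝ) 1, x ∈ closure A → x ∈ A
  inv0 : ∀ x ∈ A, f0 x0 y0 x ∈ A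
  inv1 : ∀ x ∈ A, f1 x0 y0 x ∈ A

/-- The reflected set. -/
def refl (A : Set ℝ) : Set ℝ := {x | 1 - x ∈ A}

theorem Inv.refl {A : Set ℝ} (hA : Inv x0 y0 A) : Inv x0 y0 (refl A) where
  sub := by
    intro x hx
    have := hA.sub hx
    exact ⟨by linarith [this.2], by linarith [this.1]⟩
  closed := by
    intro x hx hc
    apply hA.closed (1 - x) ⟨by linarith [hx.2], by linarith [hx.1]⟩
    rw [Metric.mem_closure_iff] at hc ⊢
    intro ε hε
    obtain ⟨b, hb, hd⟩ := hc ε hε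
    refine ⟨1 - b, hb, ?_⟩
    rw [Real.dist_eq] at hd ⊢
    have : 1 - x - (1 - b) = -(x - b) := by ring
    rw [this, abs_neg]; exact hd
  inv0 := by
    intro x hx
    have := hA.inv1 _ hx
    unfold f1 at this
    rw [sub_sub_cancel] at this
    exact this
  inv1 := by
    intro x hx
    have := hA.inv0 _ hx
    show 1 - f1 x0 y0 x ∈ A
    rw [f1, sub_sub_cancel]
    exact this

/-- Recurrence: arbitrarily large `m, n` with `m α + n β` small, for `α < 0 < β`. -/
theorem exists_recur {α β : ℝ} (hα : α < 0) (hβ : 0 < β) {ε : ℝ} (hε : 0 < ε) (N : ℕ) :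
    ∃ m n : ℕ, N ≤ m ∧ N ≤ n ∧ |m * α + n * β| < ε := by
  set θ := -α / β with hθ
  have hθ0 : 0 < θ := by rw [hθ]; apply div_pos <;> linarith
  obtain ⟨M, hM⟩ := exists_nat_gt (max (N : ℝ) (((N : ℝ) + 1) / θ))
  have hMN : (N : ℝ) < M := lt_of_le_of_lt (le_max_left _ _) hM
  have hMθ : (N + 1 : ℝ) < M * θ := by
    have := lt_of_le_of_lt (le_max_right _ _) hM
    rwa [div_lt_iff₀ hθ0] at this
  obtain ⟨K, hK⟩ := exists_nat_gt (max 1 (β / ε))
  have hK1 : (1 : ℝ) < K := lt_of_le_of_lt (le_max_left _ _) hK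
  have hKε : β / ε < K := lt_of_le_of_lt (le_max_right _ _) hK
  have hK0 : 0 < K := by
    have : (0 : ℝ) < K := by linarith
    exact_mod_cast this
  obtain ⟨j, k, hk0, hkK, hjk⟩ := Real.exists_int_int_abs_mul_sub_le (M * θ) hK0
  -- `m = k M`, `n = j`
  have hk1 : (1 : ℝ) ≤ k := by exact_mod_cast hk0
  have hsmall : |k * (M * θ) - j| < 1 ∧ |k * (M * θ) - j| * β < ε := by
    have hKp : (0 : ℝ) < K + 1 := by linarith
    constructor
    · refine lt_of_le_of_lt hjk ?_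
      rw [div_lt_one hKp]; linarith
    · calc |k * (M * θ) - j| * β ≤ 1 / (K + 1) * β := by gcongr
        _ < ε := by
          rw [div_mul_eq_mul_div, one_mul, div_lt_iff₀ hKp]
          rw [div_lt_iff₀ hε] at hKε
          nlinarith
  have hjN : (N : ℝ) < j := by
    have h1 := (abs_lt.mp hsmall.1).2
    have h2 : M * θ ≤ k * (M * θ) := by
      have : 0 < M * θ := by linarith [(Nat.cast_nonneg N : (0 : ℝ) ≤ N)]
      nlinarith
    linarith
  have hj0 : 0 ≤ j := by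
    have : (0 : ℝ) < j := by linarith [(Nat.cast_nonneg N : (0 : ℝ) ≤ N)]
    have h3 : (0 : ℤ) < j := by exact_mod_cast this
    exact h3.le
  obtain ⟨j', rfl⟩ := Int.eq_ofNat_of_zero_le hj0
  obtain ⟨k', rfl⟩ := Int.eq_ofNat_of_zero_le hk0.le
  refine ⟨k' * M, j', ?_, ?_, ?_⟩
  · have hk' : 1 ≤ k' := by exact_mod_cast hk0
    have : (N : ℕ) < M := by exact_mod_cast hMN
    nlinarith
  · have : (N : ℝ) < (j' : ℝ) := by exact_mod_cast hjN
    exact_mod_cast this.le
  · have h4 : ((k' * M : ℕ) : ℝ) * α + (j' : ℝ) * β = -((k' : ℝ) * (M * θ) - j') * β := by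
      rw [hθ]; push_cast; field_simp; ring
    rw [h4, abs_mul, abs_neg, abs_of_pos hβ]
    exact_mod_cast hsmall.2

/-- Approximation of elements of the group generated by `a < 1 < b` by elements of the semigroup. -/
theorem exists_approx {a b : ℝ} (ha : 0 < a) (ha1 : a < 1) (hb : 1 < b) (k l : ℤ) {ε : ℝ}
    (hε : 0 < ε) : ∃ i j : ℕ, |a ^ i * b ^ j - a ^ k * b ^ l| < ε := by
  have hb0 : 0 < b := by linarith
  have hα : Real.log a < 0 := Real.log_neg ha ha1
  have hβ : 0 < Real.log b := Real.log_pos hb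
  set c := a ^ k * b ^ l with hc
  have hc0 : 0 < c := by positivity
  -- continuity of `x ↦ c * exp x` at `0`
  have hcont : ContinuousAt (fun x : ℝ => c * Real.exp x) 0 := by fun_prop
  rw [Metric.continuousAt_iff] at hcont
  obtain ⟨δ, hδ, hδε⟩ := hcont ε hε
  obtain ⟨m, n, hm, hn, hmn⟩ := exists_recur hα hβ hδ (k.natAbs + l.natAbs)
  have hki : 0 ≤ k + m := by omega
  have hlj : 0 ≤ l + n := by omega
  obtain ⟨i, hi⟩ := Int.eq_ofNat_of_zero_le hki
  obtain ⟨j, hj⟩ := Int.eq_ofNat_of_zero_le hlj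
  refine ⟨i, j, ?_⟩
  have h1 := hδε (x := m * Real.log a + n * Real.log b) (by rw [Real.dist_eq, sub_zero]; exact hmn)
  rw [Real.dist_eq, Real.exp_zero, mul_one] at h1
  have h2 : Real.exp (m * Real.log a + n * Real.log b) = a ^ m * b ^ n := by
    rw [Real.exp_add, Real.exp_nat_mul, Real.exp_nat_mul, Real.exp_log ha, Real.exp_log hb0]
  have h3 : a ^ i * b ^ j = c * (a ^ m * b ^ n) := by
    have e1 : a ^ i = a ^ (k + m) := by rw [hi]; exact (zpow_natCast a i).symm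
    have e2 : b ^ j = b ^ (l + n) := by rw [hj]; exact (zpow_natCast b j).symm
    rw [e1, e2, hc, zpow_add₀ ha.ne', zpow_add₀ hb0.ne', zpow_natCast, zpow_natCast]
    ring
  rw [h3, ← h2]
  exact h1

theorem mul_a0_mem (h : Par x0 y0) {A : Set ℝ} (hA : Inv x0 y0 A) {s : ℝ} (hs : s ∈ A)
    (hsx : s ≤ x0) (i : ℕ) : (y0 / x0) ^ i * s ∈ A ∧ (y0 / x0) ^ i * s ≤ x0 := by
  induction i with
  | zero => simpa using ⟨hs, hsx⟩
  | succ i ih =>
    have h1 := hA.inv0 _ ih.1
    rw [f0_left ih.2] at h1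
    have e : (y0 / x0) ^ (i + 1) * s = y0 / x0 * ((y0 / x0) ^ i * s) := by ring
    rw [e]
    refine ⟨h1, ?_⟩
    have h2 := (hA.sub ih.1).1
    have h3 := h.a0_lt
    nlinarith [ih.2]

theorem mul_a1_mem (h : Par x0 y0) {A : Set ℝ} (hA : Inv x0 y0 A) {s : ℝ} (hs : s ∈ A)
    (j : ℕ) (hj : ((1 - y0) / (1 - x0)) ^ j * s < 1 - y0) :
    ((1 - y0) / (1 - x0)) ^ j * s ∈ A := by
  have hb := h.a1_gt
  set b := (1 - y0) / (1 - x0) with hbdef
  have hb0 : 0 < b := by linarith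
  have hbx : b * (1 - x0) = 1 - y0 := by
    rw [hbdef, div_mul_cancel₀]; linarith [h.hx1]
  have hs0 := (hA.sub hs).1
  induction j with
  | zero => simpa using hs
  | succ j ih =>
    have e : b ^ (j + 1) * s = b * (b ^ j * s) := by ring
    rw [e] at hj ⊢
    have h1 : b ^ j * s < 1 - x0 := by
      rw [← hbx] at hj
      exact lt_of_mul_lt_mul_left hj hb0.le
    have h2 : b ^ j * s < 1 - y0 := by linarith [h.hyx]
    have h3 := hA.inv1 _ (ih h2)
    rw [f1_left h h1.le] at h3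
    exact h3

/-- The key local lemma. -/
theorem group_mem (h : Par x0 y0) {A : Set ℝ} (hA : Inv x0 y0 A) {s : ℝ} (hs : s ∈ A)
    (hsx : s ≤ x0) (k l : ℤ)
    (ht : (y0 / x0) ^ k * ((1 - y0) / (1 - x0)) ^ l * s < 1 - y0) :
    (y0 / x0) ^ k * ((1 - y0) / (1 - x0)) ^ l * s ∈ A := by
  have ha := h.a0_pos
  have ha1 := h.a0_lt
  have hb := h.a1_gt
  set a := y0 / x0 with hadef
  set b := (1 - y0) / (1 - x0) with hbdef
  have hb0 : 0 < b := by linarith
  have hs0 := (hA.sub hs).1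
  have hs1 := (hA.sub hs).2
  set t := a ^ k * b ^ l * s with htdef
  have ht0 : 0 < t := by positivity
  have hy := h.hy
  apply hA.closed t ⟨ht0, by linarith⟩
  rw [Metric.mem_closure_iff]
  intro ε hε
  have hε' : 0 < min ε (1 - y0 - t) := lt_min hε (by linarith)
  obtain ⟨i, j, hij⟩ := exists_approx ha ha1 hb k l hε'
  have h1 : |a ^ i * b ^ j * s - t| < min ε (1 - y0 - t) := by
    rw [htdef, ← sub_mul, abs_mul, abs_of_pos hs0]
    calc _ ≤ |a ^ i * b ^ j - a ^ k * b ^ l| * 1 := by gcongr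
      _ < _ := by rw [mul_one]; exact hij
  have h2 : b ^ j * (a ^ i * s) < 1 - y0 := by
    have := (abs_lt.mp h1).2
    have := min_le_right ε (1 - y0 - t)
    have e : b ^ j * (a ^ i * s) = a ^ i * b ^ j * s := by ring
    rw [e]; linarith
  have h3 := mul_a1_mem h hA (mul_a0_mem h hA hs hsx i).1 j h2
  refine ⟨_, h3, ?_⟩
  rw [Real.dist_eq, abs_sub_comm]
  have e : b ^ j * (a ^ i * s) = a ^ i * b ^ j * s := by ring
  show |b ^ j * (a ^ i * s) - t| < ε
  rw [e]
  exact lt_of_lt_of_le h1 (min_le_left _ _)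

/-- The saturation of the part of `A` near `0` under the group generated by `a₀` and `a₁`. -/
def sat (x0 y0 : ℝ) (A : Set ℝ) : Set ℝ :=
  {t | ∃ s ∈ A, s ≤ x0 ∧ ∃ k l : ℤ, t = (y0 / x0) ^ k * ((1 - y0) / (1 - x0)) ^ l * s}

theorem mem_of_sat (h : Par x0 y0) {A : Set ℝ} (hA : Inv x0 y0 A) {t : ℝ}
    (ht : t ∈ sat x0 y0 A) (hty : t < 1 - y0) : t ∈ A := by
  obtain ⟨s, hs, hsx, k, l, rfl⟩ := ht
  exact group_mem h hA hs hsx k l hty

theorem sat_of_mem {A : Set ℝ} {t : ℝ} (ht : t ∈ A) (htx : t ≤ x0) : t ∈ sat x0 y0 A :=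
  ⟨t, ht, htx, 0, 0, by simp⟩

theorem sat_a0 (h : Par x0 y0) {A : Set ℝ} {t : ℝ} (k : ℤ) :
    (y0 / x0) ^ k * t ∈ sat x0 y0 A ↔ t ∈ sat x0 y0 A := by
  have ha := h.a0_pos
  constructor
  · rintro ⟨s, hs, hsx, k', l, h1⟩
    refine ⟨s, hs, hsx, k' - k, l, ?_⟩
    have hk : (y0 / x0) ^ k ≠ 0 := by positivity
    have e : (y0 / x0) ^ (k' - k) * ((1 - y0) / (1 - x0)) ^ l * s
        = ((y0 / x0) ^ k' * ((1 - y0) / (1 - x0)) ^ l * s) / (y0 / x0) ^ k := by
      rw [zpow_sub₀ ha.ne']; ring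
    rw [e, ← h1, mul_div_cancel_left₀ _ hk]
  · rintro ⟨s, hs, hsx, k', l, h1⟩
    refine ⟨s, hs, hsx, k + k', l, ?_⟩
    rw [h1, zpow_add₀ ha.ne']
    ring

theorem sat_a1 (h : Par x0 y0) {A : Set ℝ} {t : ℝ} :
    ((1 - y0) / (1 - x0)) * t ∈ sat x0 y0 A ↔ t ∈ sat x0 y0 A := by
  have hb := h.a1_gt
  set b := (1 - y0) / (1 - x0) with hbdef
  have hb0 : 0 < b := by linarith
  constructor
  · rintro ⟨s, hs, hsx, k, l, h1⟩
    refine ⟨s, hs, hsx, k, l - 1, ?_⟩
    rw [← hbdef] at h1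
    have e : (y0 / x0) ^ k * b ^ (l - 1) * s = ((y0 / x0) ^ k * b ^ l * s) / b := by
      rw [zpow_sub₀ hb0.ne', zpow_one]; ring
    rw [← hbdef, e, ← h1, mul_div_cancel_left₀ _ hb0.ne']
  · rintro ⟨s, hs, hsx, k, l, h1⟩
    refine ⟨s, hs, hsx, k, l + 1, ?_⟩
    rw [h1, zpow_add₀ hb0.ne', zpow_one]
    ring

theorem sat_pos (h : Par x0 y0) {A : Set ℝ} (hA : Inv x0 y0 A) {t : ℝ}
    (ht : t ∈ sat x0 y0 A) : 0 < t := by
  obtain ⟨s, hs, hsx, k, l, rfl⟩ := ht
  have hs0 := (hA.sub hs).1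
  have ha := h.a0_pos
  have hb : 0 < (1 - y0) / (1 - x0) := by linarith [h.a1_gt]
  positivity

/-- Reflection. -/
theorem sat_refl (h : Par x0 y0) {A : Set ℝ} (hA : Inv x0 y0 A) {x : ℝ}
    (hx : x ∈ sat x0 y0 A) (h1 : 1 - x0 ≤ x) (h2 : x ≤ 1 - y0) : 1 - x ∈ sat x0 y0 (refl A) := by
  have hbx : (1 - y0) / (1 - x0) * (1 - x0) = 1 - y0 := by
    rw [div_mul_cancel₀]; linarith [h.hx1]
  have hxA : x ∈ A := by
    rcases h2.lt_or_eq with h3 | h3
    · exact mem_of_sat h hA hx h3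
    · have h4 : (1 - x0) ∈ sat x0 y0 A := by
        rw [← sat_a1 h, hbx, ← h3]; exact hx
      have h5 := mem_of_sat h hA h4 (by linarith [h.hyx])
      have h6 := hA.inv1 _ h5
      rw [f1_left h le_rfl, hbx, ← h3] at h6
      exact h6
  apply sat_of_mem
  · show 1 - (1 - x) ∈ A
    rw [sub_sub_cancel]; exact hxA
  · linarith

/-- `(p, q)` contains no point of `S`. -/
def Free (S : Set ℝ) (p q : ℝ) : Prop := 0 < p ∧ p < q ∧ ∀ t, p < t → t < q → t ∉ S

/-- Nonempty saturated sets have bounded gaps. -/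
theorem free_bound (h : Par x0 y0) {A : Set ℝ} (hA : Inv x0 y0 A) {w : ℝ}
    (hw : w ∈ sat x0 y0 A) {p q : ℝ} (hF : Free (sat x0 y0 A) p q) : q / p ≤ x0 / y0 := by
  by_contra hcon
  push Not at hcon
  have hx := h.hx
  have hy := h.hy
  have hc : 1 < x0 / y0 := by rw [one_lt_div (by linarith)]; exact h.hyx
  have hw0 := sat_pos h hA hw
  have hp := hF.1
  -- find `n` with `(x0/y0)^n ≤ w / q' ...`
  have hc0 : 0 < x0 / y0 := by linarith
  obtain ⟨n, hn1, hn2⟩ := exists_mem_Ioc_zpow (show 0 < w / p by positivity) hc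
  -- `c^n < w/p ≤ c^(n+1)`, so `p < w c^{-n} ≤ c p < q`
  have hcn : 0 < (x0 / y0) ^ n := by positivity
  have e1 : (y0 / x0) ^ n = ((x0 / y0) ^ n)⁻¹ := by
    rw [← inv_zpow, inv_div]
  have h3 : p < (y0 / x0) ^ n * w := by
    rw [e1, lt_inv_mul_iff₀ hcn]
    rw [lt_div_iff₀ hp] at hn1
    linarith
  have h4 : (y0 / x0) ^ n * w < q := by
    rw [e1, inv_mul_lt_iff₀ hcn]
    rw [div_le_iff₀ hp, zpow_add₀ hc0.ne', zpow_one] at hn2
    rw [lt_div_iff₀ hp] at hcon
    calc w ≤ (x0 / y0) ^ n * (x0 / y0) * p := hn2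
      _ = (x0 / y0) ^ n * (x0 / y0 * p) := by ring
      _ < (x0 / y0) ^ n * q := by gcongr
  exact hF.2.2 _ h3 h4 ((sat_a0 h n).mpr hw)

/-- The elementary inequality behind the growth of gaps. -/
theorem g_ineq {u v : ℝ} (hu : 1 / 2 ≤ u) (huv : u ≤ v) (hv : v < 1) :
    (1 + (v / u - 1) ^ 2) * (v * (1 - v)) ≤ u * (1 - u) := by
  have hu0 : 0 < u := by linarith
  have h1 : v / u - 1 = (v - u) / u := by field_simp
  rw [h1]
  have h2 : ((v - u) / u) ^ 2 ≤ 4 * (v - u) ^ 2 := by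
    rw [div_pow, div_le_iff₀ (by positivity)]
    have : 1 ≤ 4 * u ^ 2 := by nlinarith
    nlinarith [sq_nonneg (v - u)]
  have h3 : v * (1 - v) ≤ 1 / 4 := by nlinarith [sq_nonneg (v - 1 / 2)]
  have h4 : 0 ≤ v * (1 - v) := by nlinarith
  have h5 : ((v - u) / u) ^ 2 * (v * (1 - v)) ≤ (v - u) ^ 2 := by
    calc ((v - u) / u) ^ 2 * (v * (1 - v)) ≤ (4 * (v - u) ^ 2) * (1 / 4) := by gcongr
      _ = (v - u) ^ 2 := by ring
  nlinarith

theorem scale_free (h : Par x0 y0) {A : Set ℝ} {p q : ℝ} (k : ℤ)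
    (hF : Free (sat x0 y0 A) p q) :
    Free (sat x0 y0 A) ((y0 / x0) ^ k * p) ((y0 / x0) ^ k * q) := by
  have ha := h.a0_pos
  have hk : 0 < (y0 / x0) ^ k := by positivity
  refine ⟨mul_pos hk hF.1, by have := hF.2.1; gcongr, ?_⟩
  intro t ht1 ht2 ht
  apply hF.2.2 ((y0 / x0) ^ (-k) * t)
  · rw [zpow_neg, lt_inv_mul_iff₀ hk]; exact ht1
  · rw [zpow_neg, inv_mul_lt_iff₀ hk]; exact ht2
  · exact (sat_a0 h (-k)).mpr ht

/-- The step: a gap of `A'` gives a larger gap of `A`. -/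
theorem gap_step (h : Par x0 y0) {A A' : Set ℝ} (hA' : Inv x0 y0 A')
    (hAA : ∀ x, x ∈ sat x0 y0 A → 1 - x0 ≤ x → x ≤ 1 - y0 → 1 - x ∈ sat x0 y0 A')
    {w : ℝ} (hw : w ∈ sat x0 y0 A') {p q : ℝ} (hF : Free (sat x0 y0 A') p q) {c : ℝ}
    (hc1 : 1 ≤ c) (hc : c ^ 2 ≤ q / p) :
    ∃ p' q', Free (sat x0 y0 A) p' q' ∧ (1 + (c - 1) ^ 2) * (q / p) ≤ q' / p' := by
  have hx := h.hx
  have hx1 := h.hx1
  have hy := h.hy
  have hyx := h.hyx
  have hp := hF.1
  have hb := h.a1_gt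
  have hx0 : 0 < x0 := by linarith
  have hy0 : 0 < y0 := by linarith
  have hC : 1 < x0 / y0 := by rw [one_lt_div (by linarith)]; exact h.hyx
  have hC0 : 0 < x0 / y0 := by linarith
  -- normalise
  obtain ⟨n, hn1, hn2⟩ := exists_mem_Ico_zpow (show 0 < p / y0 by positivity) hC
  have hcn : 0 < (x0 / y0) ^ n := by positivity
  have e1 : (y0 / x0) ^ n = ((x0 / y0) ^ n)⁻¹ := by
    rw [← inv_zpow, inv_div]
  have hFn := scale_free h n hF
  set u := (y0 / x0) ^ n * p with hu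
  set v := (y0 / x0) ^ n * q with hv
  have hkn : (y0 / x0) ^ n ≠ 0 := by rw [e1]; positivity
  have hratio : q / p = v / u := by rw [hu, hv, mul_div_mul_left _ _ hkn]
  have hu1 : y0 ≤ u := by
    rw [hu, e1, le_inv_mul_iff₀ hcn]
    rwa [le_div_iff₀ hy0] at hn1
  have hu2 : u < x0 := by
    rw [hu, e1, inv_mul_lt_iff₀ hcn]
    rw [div_lt_iff₀ hy0, zpow_add₀ hC0.ne', zpow_one] at hn2
    calc p < (x0 / y0) ^ n * (x0 / y0) * y0 := hn2
      _ = (x0 / y0) ^ n * x0 := by field_simp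
  have huv : u < v := hFn.2.1
  have hu0 : 0 < u := hFn.1
  have hv0 : 0 < v := by linarith
  rw [hratio] at hc ⊢
  have hbound := free_bound h hA' hw hFn
  rcases le_or_gt v x0 with hvx | hvx
  · -- first case
    refine ⟨1 - v, 1 - u, ⟨by linarith, by linarith, ?_⟩, ?_⟩
    · intro t ht1 ht2 ht
      have := hAA t ht (by linarith) (by linarith)
      exact hFn.2.2 (1 - t) (by linarith) (by linarith) this
    · have hg := g_ineq (u := u) (v := v) (by linarith) huv.le (by linarith)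
      have hcv : c ≤ v / u := by nlinarith
      have h3 : (c - 1) ^ 2 ≤ (v / u - 1) ^ 2 := by
        apply pow_le_pow_left₀ (by linarith); linarith
      have hv1 : 0 < 1 - v := by linarith
      rw [le_div_iff₀ hv1]
      have h4 : (1 + (c - 1) ^ 2) * (v * (1 - v)) ≤ u * (1 - u) := by
        refine le_trans ?_ hg
        have : 0 ≤ v * (1 - v) := by positivity
        gcongr
      calc (1 + (c - 1) ^ 2) * (v / u) * (1 - v) = (1 + (c - 1) ^ 2) * (v * (1 - v)) / u := by ring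
        _ ≤ (u * (1 - u)) / u := by gcongr
        _ = 1 - u := by field_simp
  · -- second case
    set a := y0 / x0 with ha
    set b := (1 - y0) / (1 - x0) with hbdef
    have ha0 : 0 < a := h.a0_pos
    have hax : a * x0 = y0 := by rw [ha]; field_simp
    have hbx : b * (1 - x0) = 1 - y0 := by
      rw [hbdef, div_mul_cancel₀]; linarith
    have hb0 : 0 < b := by linarith
    have hav1 : y0 < a * v := by rw [← hax]; gcongr
    have hav2 : a * v ≤ u := by
      rw [div_le_iff₀ hu0] at hbound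
      have : a * v ≤ a * (x0 / y0 * u) := by gcongr
      have e : a * (x0 / y0 * u) = u := by rw [ha]; field_simp
      linarith
    refine ⟨1 - a * v, b * (1 - u), ⟨by linarith, ?_, ?_⟩, ?_⟩
    · have : b * (1 - x0) < b * (1 - u) := by gcongr
      linarith
    · intro t ht1 ht2 ht
      rcases le_or_gt t (1 - y0) with h3 | h3
      · have h4 := hAA t ht (by linarith) h3
        -- `1 - t ∈ [y0, a v)`
        have h5 : (1 / a) * (1 - t) ∈ sat x0 y0 A' := by
          have := (sat_a0 (A := A') h (-1) (t := 1 - t)).mpr h4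
          rw [zpow_neg_one, ← one_div] at this
          exact this
        apply hFn.2.2 _ ?_ ?_ h5
        · rw [one_div, lt_inv_mul_iff₀ ha0]
          calc a * u < a * x0 := by gcongr
            _ = y0 := hax
            _ ≤ 1 - t := by linarith
        · rw [one_div, inv_mul_lt_iff₀ ha0]; linarith
      · -- `t / b ∈ [1 - x0, 1 - u)`
        have h4 : t / b ∈ sat x0 y0 A := by
          rw [← sat_a1 h, ← hbdef, mul_div_cancel₀ _ hb0.ne']; exact ht
        have h5 : 1 - x0 ≤ t / b := by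
          rw [le_div_iff₀ hb0]; linarith
        have h6 : t / b < 1 - u := by
          rw [div_lt_iff₀ hb0]; linarith
        have h7 := hAA _ h4 h5 (by linarith)
        exact hFn.2.2 _ (by linarith) (by linarith) h7
    · -- the inequality
      have hg1 := g_ineq (u := u) (v := x0) (by linarith) hu2.le hx1
      have hg2 := g_ineq (u := y0) (v := a * v) hy hav1.le (by linarith)
      have hden : 0 < 1 - a * v := by linarith
      rw [le_div_iff₀ hden]
      -- `r1 = x0 / u`, `r2 = a v / y0`, `r1 r2 = v / u`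
      set r1 := x0 / u with hr1
      set r2 := a * v / y0 with hr2
      have hr11 : 1 < r1 := by rw [hr1, one_lt_div hu0]; exact hu2
      have hr21 : 1 < r2 := by rw [hr2, one_lt_div hy0]; exact hav1
      have hr12 : r1 * r2 = v / u := by
        rw [hr1, hr2, ha]; field_simp
      have hmain : (1 + (c - 1) ^ 2) ≤ (1 + (r1 - 1) ^ 2) * (1 + (r2 - 1) ^ 2) := by
        have h1 : c ≤ r1 ∨ c ≤ r2 := by
          by_contra hcon
          push Not at hcon
          have : r1 * r2 < c * c := by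
            apply mul_lt_mul'' hcon.1 hcon.2 <;> linarith
          rw [hr12] at this
          nlinarith
        rcases h1 with h1 | h1
        · have h2 : (c - 1) ^ 2 ≤ (r1 - 1) ^ 2 := by
            apply pow_le_pow_left₀ (by linarith); linarith
          nlinarith [sq_nonneg (r2 - 1), sq_nonneg (r1 - 1),
            mul_nonneg (sq_nonneg (r1 - 1)) (sq_nonneg (r2 - 1))]
        · have h2 : (c - 1) ^ 2 ≤ (r2 - 1) ^ 2 := by
            apply pow_le_pow_left₀ (by linarith); linarith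
          nlinarith [sq_nonneg (r2 - 1), sq_nonneg (r1 - 1),
            mul_nonneg (sq_nonneg (r1 - 1)) (sq_nonneg (r2 - 1))]
      -- combine
      have hprod : (1 + (r1 - 1) ^ 2) * (1 + (r2 - 1) ^ 2) * (x0 * (1 - x0) * (a * v * (1 - a * v)))
          ≤ u * (1 - u) * (y0 * (1 - y0)) := by
        have n1 : 0 ≤ (1 + (r1 - 1) ^ 2) * (x0 * (1 - x0)) := by
          have : 0 < 1 - x0 := by linarith
          positivity
        have n2 : 0 ≤ (1 + (r2 - 1) ^ 2) * (a * v * (1 - a * v)) := by positivity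
        calc _ = ((1 + (r1 - 1) ^ 2) * (x0 * (1 - x0))) *
              ((1 + (r2 - 1) ^ 2) * (a * v * (1 - a * v))) := by ring
          _ ≤ (u * (1 - u)) * (y0 * (1 - y0)) := by
            apply mul_le_mul hg1 hg2 n2
            have : 0 < 1 - u := by linarith
            positivity
      have hpos : 0 < x0 * (1 - x0) * (a * u) := by
        have : 0 < 1 - x0 := by linarith
        positivity
      have hfin : (1 + (c - 1) ^ 2) * (v / u) * (1 - a * v) * (x0 * (1 - x0) * (a * u))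
          ≤ b * (1 - u) * (x0 * (1 - x0) * (a * u)) := by
        have n3 : 0 ≤ x0 * (1 - x0) * (a * v * (1 - a * v)) := by
          have : 0 < 1 - x0 := by linarith
          positivity
        calc (1 + (c - 1) ^ 2) * (v / u) * (1 - a * v) * (x0 * (1 - x0) * (a * u))
            = (1 + (c - 1) ^ 2) * (x0 * (1 - x0) * (a * v * (1 - a * v))) := by
              field_simp
          _ ≤ (1 + (r1 - 1) ^ 2) * (1 + (r2 - 1) ^ 2) *
                (x0 * (1 - x0) * (a * v * (1 - a * v))) := by gcongr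
          _ ≤ u * (1 - u) * (y0 * (1 - y0)) := hprod
          _ = b * (1 - u) * (x0 * (1 - x0) * (a * u)) := by
              rw [← hbx, ← hax]; ring
      exact le_of_mul_le_mul_right hfin hpos

/-- No gaps. -/
theorem no_gap (h : Par x0 y0) {A A' : Set ℝ} (hA : Inv x0 y0 A) (hA' : Inv x0 y0 A')
    (hAA : ∀ x, x ∈ sat x0 y0 A → 1 - x0 ≤ x → x ≤ 1 - y0 → 1 - x ∈ sat x0 y0 A')
    (hAA' : ∀ x, x ∈ sat x0 y0 A' → 1 - x0 ≤ x → x ≤ 1 - y0 → 1 - x ∈ sat x0 y0 A)
    {w w' : ℝ} (hw : w ∈ sat x0 y0 A) (hw' : w' ∈ sat x0 y0 A') (p q : ℝ) :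
    ¬ Free (sat x0 y0 A) p q := by
  intro hF
  have hp := hF.1
  have hr : 1 < q / p := by rw [one_lt_div hp]; exact hF.2.1
  set c := √(q / p) with hc
  have hc2 : c ^ 2 = q / p := Real.sq_sqrt (by linarith)
  have hc1 : 1 < c := by
    rw [hc]; apply Real.lt_sqrt_of_sq_lt; linarith
  set K := 1 + (c - 1) ^ 2 with hK
  have hK1 : 1 < K := by
    rw [hK]
    have : 0 < (c - 1) ^ 2 := pow_pos (by linarith) 2
    linarith
  have key : ∀ n : ℕ, (∃ p' q', Free (sat x0 y0 A) p' q' ∧ K ^ n * c ^ 2 ≤ q' / p') ∨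
      (∃ p' q', Free (sat x0 y0 A') p' q' ∧ K ^ n * c ^ 2 ≤ q' / p') := by
    intro n
    induction n with
    | zero => left; exact ⟨p, q, hF, by rw [pow_zero, one_mul, hc2]⟩
    | succ n ih =>
      have hKn : 1 ≤ K ^ n := one_le_pow₀ hK1.le
      rcases ih with ⟨p', q', hF', hle⟩ | ⟨p', q', hF', hle⟩
      · right
        have h1 : c ^ 2 ≤ q' / p' := by nlinarith [sq_nonneg c]
        obtain ⟨p2, q2, hF2, h2⟩ := gap_step h hA hAA' hw hF' hc1.le h1
        refine ⟨p2, q2, hF2, ?_⟩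
        calc K ^ (n + 1) * c ^ 2 = K * (K ^ n * c ^ 2) := by ring
          _ ≤ K * (q' / p') := by gcongr
          _ ≤ q2 / p2 := h2
      · left
        have h1 : c ^ 2 ≤ q' / p' := by nlinarith [sq_nonneg c]
        obtain ⟨p2, q2, hF2, h2⟩ := gap_step h hA' hAA hw' hF' hc1.le h1
        refine ⟨p2, q2, hF2, ?_⟩
        calc K ^ (n + 1) * c ^ 2 = K * (K ^ n * c ^ 2) := by ring
          _ ≤ K * (q' / p') := by gcongr
          _ ≤ q2 / p2 := h2
  obtain ⟨n, hn⟩ := pow_unbounded_of_one_lt (x0 / y0) hK1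
  have hKn : 0 < K ^ n := by positivity
  rcases key n with ⟨p', q', hF', hle⟩ | ⟨p', q', hF', hle⟩
  · have := free_bound h hA hw hF'
    nlinarith
  · have := free_bound h hA' hw' hF'
    nlinarith

/-- Every point of `(0, 1 - y0)` belongs to `A`. -/
theorem left_mem (h : Par x0 y0) {A : Set ℝ} (hA : Inv x0 y0 A)
    {w w' : ℝ} (hw : w ∈ sat x0 y0 A) (hw' : w' ∈ sat x0 y0 (refl A)) {t : ℝ} (ht0 : 0 < t)
    (ht : t < 1 - y0) : t ∈ A := by
  have hy := h.hy
  apply hA.closed t ⟨ht0, by linarith⟩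
  rw [Metric.mem_closure_iff]
  intro ε hε
  have hAA' : ∀ x, x ∈ sat x0 y0 (refl A) → 1 - x0 ≤ x → x ≤ 1 - y0 → 1 - x ∈ sat x0 y0 A := by
    intro x hx h1 h2
    have := sat_refl h hA.refl hx h1 h2
    have e : refl (refl A) = A := by
      ext x; show 1 - (1 - x) ∈ A ↔ x ∈ A
      rw [sub_sub_cancel]
    rwa [e] at this
  have hng := no_gap h hA hA.refl (fun x hx h1 h2 => sat_refl h hA hx h1 h2) hAA' hw hw'
    t (min (t + ε) (1 - y0))
  have : ∃ s, t < s ∧ s < min (t + ε) (1 - y0) ∧ s ∈ sat x0 y0 A := by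
    by_contra hcon
    push Not at hcon
    exact hng ⟨ht0, lt_min (by linarith) ht, hcon⟩
  obtain ⟨s, hs1, hs2, hs3⟩ := this
  refine ⟨s, mem_of_sat h hA hs3 (lt_of_lt_of_le hs2 (min_le_right _ _)), ?_⟩
  rw [Real.dist_eq, abs_sub_comm, abs_of_pos (by linarith)]
  have := lt_of_lt_of_le hs2 (min_le_left _ _)
  linarith

theorem f0_lt (h : Par x0 y0) {x : ℝ} (hx0 : 0 < x) (hx1 : x < 1) :
    f0 x0 y0 x < x ∧ 0 < f0 x0 y0 x := by
  have ha := h.a0_pos
  have ha1 := h.a0_lt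
  have hb := h.a1_gt
  have h1 := h.hx1
  have h2 := h.hx
  rw [f0]
  split_ifs with hc
  · exact ⟨by nlinarith, by positivity⟩
  · constructor
    · nlinarith
    · have hbx : (1 - y0) / (1 - x0) * (1 - x0) = 1 - y0 := by
        rw [div_mul_cancel₀]; linarith [h.hx1]
      have : (1 - y0) / (1 - x0) * (1 - x) < (1 - y0) / (1 - x0) * (1 - x0) := by
        have : 0 < (1 - y0) / (1 - x0) := by linarith
        push Not at hc
        gcongr
      nlinarith [h.hy]

/-- An invariant set has small points. -/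
theorem exists_small (h : Par x0 y0) {A : Set ℝ} (hA : Inv x0 y0 A) (hne : A.Nonempty) :
    ∃ s ∈ A, s ≤ x0 := by
  obtain ⟨x, hx⟩ := hne
  by_contra hcon
  push Not at hcon
  have hb := h.a1_gt
  set b := (1 - y0) / (1 - x0) with hbdef
  -- `1 - f0 x = b (1 - x)` as long as `x > x0`
  have key : ∀ n : ℕ, ∃ z ∈ A, 1 - z = b ^ n * (1 - x) := by
    intro n
    induction n with
    | zero => exact ⟨x, hx, by simp⟩
    | succ n ih =>
      obtain ⟨z, hz, hz2⟩ := ih
      refine ⟨f0 x0 y0 z, hA.inv0 z hz, ?_⟩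
      rw [f0, if_neg (not_le.mpr (hcon z hz)), ← hbdef, pow_succ]
      linear_combination b * hz2
  have hx1 := (hA.sub hx).2
  obtain ⟨n, hn⟩ := pow_unbounded_of_one_lt (1 / (1 - x)) hb
  obtain ⟨z, hz, hz2⟩ := key n
  have hz0 := (hA.sub hz).1
  rw [div_lt_iff₀ (by linarith)] at hn
  linarith

/-- A nonempty closed forward invariant set is everything. -/
theorem full (h : Par x0 y0) {A : Set ℝ} (hA : Inv x0 y0 A) (hne : A.Nonempty) :
    Ioo (0 : ℝ) 1 ⊆ A := by
  have hne' : (refl A).Nonempty := by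
    obtain ⟨x, hx⟩ := hne
    exact ⟨1 - x, by show 1 - (1 - x) ∈ A; rw [sub_sub_cancel]; exact hx⟩
  obtain ⟨s, hs, hsx⟩ := exists_small h hA hne
  obtain ⟨s', hs', hsx'⟩ := exists_small h hA.refl hne'
  have hw := sat_of_mem (y0 := y0) hs hsx
  have hw' := sat_of_mem (y0 := y0) hs' hsx'
  have hL : ∀ t, 0 < t → t < 1 - y0 → t ∈ A := fun t h1 h2 => left_mem h hA hw hw' h1 h2
  have hR : ∀ t, y0 < t → t < 1 → t ∈ A := by
    intro t h1 h2
    have e : refl (refl A) = A := by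
      ext x; show 1 - (1 - x) ∈ A ↔ x ∈ A
      rw [sub_sub_cancel]
    have := left_mem h hA.refl hw' (by rw [e]; exact hw) (t := 1 - t) (by linarith) (by linarith)
    have h3 : 1 - (1 - t) ∈ A := this
    rwa [sub_sub_cancel] at h3
  -- push `(y0, 1)` down by `f0`
  intro t ht
  by_contra hcon
  -- consider the supremum of the missing points
  set Z := {z : ℝ | z ∈ Ioo (0 : ℝ) 1 ∧ z ∉ A} with hZ
  have hZne : Z.Nonempty := ⟨t, ht, hcon⟩
  have hZb : ∀ z ∈ Z, z ≤ y0 := by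
    intro z hz
    by_contra hlt
    push Not at hlt
    exact hz.2 (hR z hlt hz.1.2)
  have hZbdd : BddAbove Z := ⟨y0, hZb⟩
  set σ := sSup Z with hσ
  have hσ1 : σ ≤ y0 := csSup_le hZne hZb
  have hσ0 : 0 < σ := lt_of_lt_of_le ht.1 (le_csSup hZbdd ⟨ht, hcon⟩)
  have hab : ∀ z, σ < z → z < 1 → z ∈ A := by
    intro z h1 h2
    by_contra hz
    exact absurd (le_csSup hZbdd (⟨⟨by linarith, h2⟩, hz⟩ : z ∈ Z)) (not_le.mpr h1)
  -- every point slightly below `σ` has a preimage above `σ`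
  have ha := h.a0_pos
  have ha1 := h.a0_lt
  have hx0 : 0 < x0 := by linarith [h.hx]
  have hlow : ∀ z, y0 / x0 * σ < z → z ≤ y0 → z ∈ A := by
    intro z h1 h2
    have e : f0 x0 y0 (z / (y0 / x0)) = z := by
      rw [f0_left]
      · exact mul_div_cancel₀ z ha.ne'
      · rw [div_le_iff₀ ha]
        have : x0 * (y0 / x0) = y0 := by field_simp
        linarith
    rw [← e]
    apply hA.inv0
    apply hab
    · rw [lt_div_iff₀ ha]; linarith
    · rw [div_lt_iff₀ ha, one_mul]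
      have : x0 * (y0 / x0) = y0 := by field_simp
      have hx1 := h.hx1
      nlinarith
  have h5 : y0 / x0 * σ < σ := by nlinarith
  obtain ⟨z, hz, hz2⟩ := exists_lt_of_lt_csSup hZne h5
  exact hz.2 (hlow z hz2 (hZb z hz))

theorem f0_maps (h : Par x0 y0) {x : ℝ} (hx : x ∈ Ioo (0 : ℝ) 1) : f0 x0 y0 x ∈ Ioo (0 : ℝ) 1 := by
  have := f0_lt h hx.1 hx.2
  exact ⟨this.2, this.1.trans hx.2⟩

theorem f1_maps (h : Par x0 y0) {x : ℝ} (hx : x ∈ Ioo (0 : ℝ) 1) : f1 x0 y0 x ∈ Ioo (0 : ℝ) 1 := by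
  have hx' : 1 - x ∈ Ioo (0 : ℝ) 1 := ⟨by linarith [hx.2], by linarith [hx.1]⟩
  have := f0_maps h hx'
  rw [f1]
  exact ⟨by linarith [this.2], by linarith [this.1]⟩

theorem continuous_f0 (h : Par x0 y0) : Continuous (f0 x0 y0) := by
  unfold f0
  apply Continuous.if_le
  · fun_prop
  · fun_prop
  · fun_prop
  · fun_prop
  · intro x hx
    have h1 := h.hx1
    have h2 := h.hx
    have e1 : 1 - x0 ≠ 0 := by linarith
    have e2 : x0 ≠ 0 := by linarith
    rw [hx]
    field_simp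
    ring

theorem continuous_f1 (h : Par x0 y0) : Continuous (f1 x0 y0) := by
  unfold f1
  have := continuous_f0 h
  fun_prop

theorem orbit_sub (h : Par x0 y0) {x : ℝ} (hx : x ∈ Ioo (0 : ℝ) 1) :
    orbit x0 y0 x ⊆ Ioo 0 1 := by
  rintro y ⟨w, rfl⟩
  induction w with
  | nil => exact hx
  | cons b w ih =>
    rw [List.foldr_cons]
    cases b
    · exact f0_maps h ih
    · exact f1_maps h ih

theorem inv_closure (h : Par x0 y0) {x : ℝ} :
    Inv x0 y0 (closure (orbit x0 y0 x) ∩ Ioo 0 1) where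
  sub := inter_subset_right
  closed := by
    intro y hy hc
    refine ⟨?_, hy⟩
    have := closure_mono (inter_subset_left (s := closure (orbit x0 y0 x)) (t := Ioo 0 1)) hc
    rwa [closure_closure] at this
  inv0 := by
    rintro y ⟨hy, hy2⟩
    refine ⟨?_, f0_maps h hy2⟩
    have hm : MapsTo (f0 x0 y0) (orbit x0 y0 x) (orbit x0 y0 x) := by
      rintro z ⟨w, rfl⟩
      exact ⟨false :: w, by simp⟩
    exact hm.closure (continuous_f0 h) hy
  inv1 := by
    rintro y ⟨hy, hy2⟩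
    refine ⟨?_, f1_maps h hy2⟩
    have hm : MapsTo (f1 x0 y0) (orbit x0 y0 x) (orbit x0 y0 x) := by
      rintro z ⟨w, rfl⟩
      exact ⟨true :: w, by simp⟩
    exact hm.closure (continuous_f1 h) hy

/-- Every Alsedà–Misiurewicz system with `1/2 < x₀ < 1` and `1/2 ≤ y₀ < x₀` is minimal: the orbit of
every point of `(0, 1)` is dense in `(0, 1)`. -/
theorem result (x0 y0 : ℝ) (hx : 1 / 2 < x0) (hx1 : x0 < 1) (hy : 1 / 2 ≤ y0) (hyx : y0 < x0)
    (x : ℝ) (hx01 : x ∈ Ioo (0 : ℝ) 1) :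
    orbit x0 y0 x ⊆ Ioo 0 1 ∧ Ioo (0 : ℝ) 1 ⊆ closure (orbit x0 y0 x) := by
  have h : Par x0 y0 := ⟨hx, hx1, hy, hyx⟩
  refine ⟨orbit_sub h hx01, ?_⟩
  have hA := inv_closure h (x := x)
  have hne : (closure (orbit x0 y0 x) ∩ Ioo 0 1).Nonempty :=
    ⟨x, subset_closure ⟨[], rfl⟩, hx01⟩
  exact (full h hA hne).trans inter_subset_left

end Pool.Agent.Results.MP_f06e6c_an.Minimality
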